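import Pool.Agent.helper95.RF.SpecC3

set_option autoImplicit false

/-! Row rg:GEB: every pair of coordinates gives tuples in the residue class modulo `E`. -/

namespace Pool.Agent.RF

open Finset NumberField Pool.Agent.helper3.FT

theorem GEB_ns (z : OO) : ((z.norm : ℤ) : OO) = z * star z := by
  have h := QuadraticAlgebra.algebraMap_norm_eq_mul_star z
  rwa [eq_intCast] at h

/-- `k ^ 3` divides `q ^ 3` -/
theorem GEB_k3 (k : OO) : k ^ 3 ∣ (((k.norm.natAbs : ℤ) : OO)) ^ 3 := by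
  rcases Int.natAbs_eq k.norm with h | h
  · have h1 : ((k.norm.natAbs : ℤ) : OO) = k * star k := by
      rw [← h, GEB_ns]
    rw [h1, mul_pow]
    exact dvd_mul_right _ _
  · have h2 : (k.norm.natAbs : ℤ) = -k.norm := by omega
    have h1 : ((k.norm.natAbs : ℤ) : OO) = k * (-star k) := by
      rw [h2, Int.cast_neg, GEB_ns]
      ring
    rw [h1, mul_pow]
    exact dvd_mul_right _ _

theorem GEB_mk (E : ℕ) (M₀ : OO) (x y : ℤ) :
    M₀ + (E : OO) * ⟨x, y⟩ = ⟨M₀.re + E * x, M₀.im + E * y⟩ := by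
  ext
  · rw [QuadraticAlgebra.re_add, QuadraticAlgebra.re_mul, QuadraticAlgebra.re_natCast, QuadraticAlgebra.im_natCast]
    ring
  · rw [QuadraticAlgebra.im_add, QuadraticAlgebra.im_mul, QuadraticAlgebra.re_natCast, QuadraticAlgebra.im_natCast]
    ring

theorem GEB (h1 : GRM_stmt) : GEB_stmt := by
  intro E k M₀ s₀ hE hk hq
  have hq10 : Nat.Coprime k.norm.natAbs 10 := Nat.Coprime.coprime_dvd_right (dvd_mul_right _ _) hq
  have hqE : Nat.Coprime k.norm.natAbs E := Nat.Coprime.coprime_dvd_right (dvd_mul_left _ _) hq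
  have hq1 : Nat.Coprime (1 : ℤ).natAbs k.norm.natAbs := by
    rw [Int.natAbs_one]
    exact Nat.coprime_one_left _
  obtain ⟨⟨⟨A, B, C⟩, hR⟩, hall⟩ := h1.1 k 1 1 hk hq10 hq1
  have hCG := hall (A, B, C) hR
  obtain ⟨ha, hb, hc⟩ := hR
  dsimp only at ha hb hc hCG
  have hq0 : k.norm.natAbs ≠ 0 := by
    intro h
    rw [h] at hq10
    norm_num at hq10
  obtain ⟨u, v, huv⟩ := (Nat.Coprime.isCoprime (Nat.Coprime.pow_left 3 hqE) :
    IsCoprime ((k.norm.natAbs ^ 3 : ℕ) : ℤ) (E : ℤ))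
  have hk3 := GEB_k3 k
  rw [Nat.cast_pow] at huv
  generalize k.norm.natAbs = q at *
  have hkq : k ^ 3 ∣ star k ^ 2 * r5 * ((u * (q : ℤ) ^ 3 : ℤ) : OO) := by
    rw [Int.cast_mul, Int.cast_pow]
    exact Dvd.dvd.mul_left (Dvd.dvd.mul_left hk3 _) _
  have key : ∀ (T : ℤ) (X Y : OO), k ^ 3 ∣ X → X - Y = star k ^ 2 * r5 * ((1 * T : ℤ) : OO) -
      star k ^ 2 * r5 * ((1 * (v * E * T) : ℤ) : OO) → k ^ 3 ∣ Y := by
    intro T X Y hX hXY
    have hT : ((1 * (v * E * T) : ℤ) : OO) = ((1 * T : ℤ) : OO) - ((u * (q : ℤ) ^ 3 : ℤ) : OO) * ((T : ℤ) : OO) := by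
      have : (1 * (v * E * T) : ℤ) = 1 * T - u * (q : ℤ) ^ 3 * T := by linear_combination T * huv
      rw [this, Int.cast_sub, Int.cast_mul (u * (q : ℤ) ^ 3) T]
    rw [hT] at hXY
    have h3 := dvd_sub hX (Dvd.dvd.mul_right hkq ((T : ℤ) : OO))
    have h4 : X - star k ^ 2 * r5 * ((u * (q : ℤ) ^ 3 : ℤ) : OO) * ((T : ℤ) : OO) = Y := by
      linear_combination hXY
    rw [h4] at h3
    exact h3
  have hE0 : (E : ℝ) ≠ 0 := by
    have : E ≠ 0 := by omega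
    exact_mod_cast this
  have hq0' : (q : ℝ) ≠ 0 := by exact_mod_cast hq0
  refine ⟨(v * E * A, v * E * B, v * E * C), ⟨key A _ _ ha (by ring), key B _ _ hb (by ring), key C _ _ hc (by ring)⟩,
    (v * E : ℝ) * (2 * A * M₀.re + B * M₀.im) / (q : ℝ) ^ 3, (v * E : ℝ) * (B * M₀.re + 2 * C * M₀.im) / (q : ℝ) ^ 3,
    ((v * E : ℝ) * (A * (M₀.re : ℝ) ^ 2 + B * M₀.re * M₀.im + C * (M₀.im : ℝ) ^ 2) + u * (q : ℝ) ^ 3 * s₀) / ((E : ℝ) * (q : ℝ) ^ 3), ?_⟩
  intro x y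
  refine ⟨v * E * (A * (M₀.re + E * x) ^ 2 + B * (M₀.re + E * x) * (M₀.im + E * y) + C * (M₀.im + E * y) ^ 2) +
    u * (q : ℤ) ^ 3 * s₀, ?_, ?_⟩
  · push_cast
    field_simp
    ring
  · intro z'
    constructor
    · have h := (hCG (M₀.re + E * x) (M₀.im + E * y) (v * E * (A * (M₀.re + E * x) ^ 2 +
        B * (M₀.re + E * x) * (M₀.im + E * y) + C * (M₀.im + E * y) ^ 2) + u * (q : ℤ) ^ 3 * s₀ + E * (q : ℤ) ^ 3 * z')).2
        ⟨-u * (A * (M₀.re + E * x) ^ 2 + B * (M₀.re + E * x) * (M₀.im + E * y) + C * (M₀.im + E * y) ^ 2) + u * s₀ + E * z', by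
          rw [Nat.cast_pow]
          linear_combination (A * (M₀.re + E * x) ^ 2 + B * (M₀.re + E * x) * (M₀.im + E * y) + C * (M₀.im + E * y) ^ 2) * huv⟩
      rw [one_mul, one_mul] at h
      rw [GEB_mk]
      exact h
    · refine ⟨v * (A * (M₀.re + E * x) ^ 2 + B * (M₀.re + E * x) * (M₀.im + E * y) + C * (M₀.im + E * y) ^ 2) - v * s₀ +
        (q : ℤ) ^ 3 * z', ?_⟩
      linear_combination s₀ * huv

end Pool.Agent.RF
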