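import Pool.Agent.helper67.RG.Spec

/-!
# Row TRC of project RG: transcendence over the constants of a derivation
-/

set_option autoImplicit false

namespace Pool.Agent.RG.TRC

open Pool.Agent.RG Polynomial

theorem TRC : TRC_stmt := by
  intro F B _ _ _ _ _ A D hA t ht
  have hsm : ∀ (a : A) (b : B), D (a • b) = a • D b := by
    intro a b
    rw [Algebra.smul_def, Algebra.smul_def, D.leibniz]
    have : D (algebraMap A B a) = 0 := hA _ a.2
    rw [this, smul_zero, add_zero, smul_eq_mul]
  let L : B →ₗ[A] B :=
    { toFun := D
      map_add' := fun x y => D.map_add x y
      map_smul' := hsm }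
  let D' : Derivation A B B := Derivation.mk' L (fun a b => D.leibniz a b)
  have hD' : ∀ b, D' b = D b := fun b => rfl
  have key : ∀ (n : ℕ) (p : A[X]), p.natDegree = n → aeval t p = 0 → p = 0 := by
    intro n
    induction n using Nat.strong_induction_on with
    | _ n ih =>
      intro p hn hp
      rcases Nat.eq_zero_or_pos n with h0 | h0
      · rw [h0] at hn
        obtain ⟨c, hc⟩ := natDegree_eq_zero.1 hn
        rw [← hc, aeval_C] at hp
        have : c = 0 := by
          apply Subtype.val_injective
          exact hp
        rw [← hc, this, C_0]
      · have h1 : D' (aeval t p) = aeval t (derivative p) • D' t := Derivation.map_aeval D' p t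
        rw [hp, map_zero, hD', smul_eq_mul] at h1
        have h2 : aeval t (derivative p) = 0 := by
          rcases mul_eq_zero.1 h1.symm with h | h
          · exact h
          · exact absurd h ht
        have h3 : (derivative p).natDegree < n := by
          rw [← hn]
          exact natDegree_derivative_lt (by omega)
        have h4 := ih _ h3 (derivative p) rfl h2
        have : CharZero B := charZero_of_injective_algebraMap (algebraMap F B).injective
        have : CharZero A := charZero_of_injective_algebraMap (algebraMap F A).injective
        have h5 := natDegree_eq_zero_of_derivative_eq_zero h4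
        omega
  rintro ⟨p, hp0, hp⟩
  exact hp0 (key _ p rfl hp)

end Pool.Agent.RG.TRC
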